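import Pool.Agent.H.MP_c85d9c_lc.E

namespace Pool.Agent.Results.MP_c85d9c_lc.Hard

open Pool.Agent.Lib.CX Pool.Agent.H.MP_c85d9c_lc

theorem result : NPHard WaiterWins := hard

end Pool.Agent.Results.MP_c85d9c_lc.Hard
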